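import Pool.Agent.FKHyp.Main

/-!
Free FK-Ising percolation on Gromov hyperbolic graphs: supercritical infinite clusters need not be
anchored Gromov hyperbolic.
-/

open MeasureTheory

namespace Pool.Agent.Results.MP_4ab6d1_pr.NotAnchored

open Pool.Agent.FKHyp

/-- There is an infinite, connected, locally finite, Gromov hyperbolic graph `G` with critical
probability `p_c(G) = 0` for the free FK-Ising model such that for all `p` with `0 < p < 1/20` a
free FK-Ising measure with parameter `p` exists, and for every such measure almost surely there is
an infinite cluster and every infinite cluster `C` is not anchored Gromov hyperbolic: it contains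
a single vertex `v` such that for every `δ` some geodesic triangle of `C` has `v` on one side while
the other two sides are at distance more than `δ` from `v`. -/
theorem result : ∃ (V : Type) (_ : Countable V) (G : SimpleGraph V),
    Infinite V ∧ G.Connected ∧ (∀ v, (G.neighborSet v).Finite) ∧ GromovHyperbolic G ∧
    criticalProb G = 0 ∧
    ∀ p : ℝ, 0 < p → p < 1 / 20 →
      (∃ μ : Measure (Config V), IsFreeFKIsing G p μ) ∧
      ∀ μ : Measure (Config V), IsFreeFKIsing G p μ →
        ∀ᵐ ω ∂μ, HasInfiniteCluster G ω ∧
          ∀ C : (openGraph G ω).ConnectedComponent, C.supp.Infinite →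
            ¬ AnchoredHyperbolic C.toSimpleGraph ∧
            ∃ v, FatTriangles C.toSimpleGraph v :=
  main

end Pool.Agent.Results.MP_4ab6d1_pr.NotAnchored
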